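import Mathlib

set_option autoImplicit false

/-!
# A spectrally arbitrary sign pattern with a superpattern that is not spectrally arbitrary

`M₄ ⊕ K` is spectrally arbitrary for every spectrally arbitrary `K` of order at least `2`.
Let `M₄'` be `M₄` with its `(1,4)` entry changed from `0` to `+`.  If the first three elementary
symmetric functions `E₁, E₂, E₃` of the eigenvalues of a realization of `M₄'` vanish, then its
determinant `E₄` is positive, so `M₄'` has no nilpotent realization.  Hence the superpattern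
`M₄' ⊕ K` of `M₄ ⊕ K` has no nilpotent realization, and is not spectrally arbitrary.
-/

namespace Pool.Agent.Results.MP_557f7f_co.SpectralSuperpattern

open Polynomial Matrix

/-- `A` is a realization of the sign pattern `S`. -/
def Realizes {ι : Type} (A : Matrix ι ι ℝ) (S : Matrix ι ι SignType) : Prop :=
  ∀ i j, SignType.sign (A i j) = S i j

/-- The sign pattern `S` is spectrally arbitrary: every monic real polynomial whose degree is the
order of `S` is the characteristic polynomial of a realization of `S`. -/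
def SpectrallyArbitrary {ι : Type} [Fintype ι] [DecidableEq ι] (S : Matrix ι ι SignType) : Prop :=
  ∀ P : ℝ[X], P.Monic → P.natDegree = Fintype.card ι →
    ∃ A : Matrix ι ι ℝ, Realizes A S ∧ A.charpoly = P

/-- `S'` is a superpattern of `S`: it agrees with `S` at every nonzero entry of `S`. -/
def IsSuperpattern {ι : Type} (S' S : Matrix ι ι SignType) : Prop :=
  ∀ i j, S i j ≠ 0 → S' i j = S i j

/-- The pattern `M₄`. -/
def M4 : Matrix (Fin 4) (Fin 4) SignType :=
  !![1, 1, -1, 0;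
     -1, -1, 1, 0;
     0, 0, 0, -1;
     1, 1, 0, 0]

/-- The pattern `M₄` with `+` at the position `(1,4)`. -/
def M4' : Matrix (Fin 4) (Fin 4) SignType :=
  !![1, 1, -1, 1;
     -1, -1, 1, 0;
     0, 0, 0, -1;
     1, 1, 0, 0]

/-- The pattern `T₂`. -/
def T2 : Matrix (Fin 2) (Fin 2) SignType := !![1, 1; -1, -1]

/-- The pattern `T₃`. -/
def T3 : Matrix (Fin 3) (Fin 3) SignType := !![1, 1, 0; -1, 0, 1; 0, -1, -1]

/-! ### The blocks of order two and three -/

theorem charpoly2 (a b c d : ℝ) :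
    (!![a, b; c, d] : Matrix (Fin 2) (Fin 2) ℝ).charpoly =
      X ^ 2 - C (a + d) * X + C (a * d - b * c) := by
  rw [Matrix.charpoly, Matrix.det_fin_two]
  simp
  ring

theorem realize_T2 (u v : ℝ) :
    ∃ A : Matrix (Fin 2) (Fin 2) ℝ, Realizes A T2 ∧ A.charpoly = X ^ 2 + C u * X + C v := by
  set d : ℝ := |u| + |v| + 1 with hd
  have n1 := abs_nonneg u
  have n2 := abs_nonneg v
  have l1 := neg_abs_le u
  have l2 := le_abs_self u
  have l3 := neg_abs_le v
  have hd0 : 0 < d := by rw [hd]; linarith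
  have ha0 : 0 < d - u := by rw [hd]; linarith
  have hb0 : 0 < v + (d - u) * d := by
    have h1 : 1 + |v| ≤ d - u := by rw [hd]; linarith
    have h2 : 1 + |v| ≤ d := by rw [hd]; linarith
    have h3 : (1 + |v|) * (1 + |v|) ≤ (d - u) * d :=
      mul_le_mul h1 h2 (by linarith) (by linarith)
    nlinarith
  refine ⟨!![d - u, v + (d - u) * d; -1, -d], ?_, ?_⟩
  · intro i j
    fin_cases i <;> fin_cases j
    · exact sign_pos ha0
    · exact sign_pos hb0
    · exact sign_neg (by norm_num)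
    · exact sign_neg (neg_neg_of_pos hd0)
  · rw [charpoly2]
    have h1 : d - u + -d = -u := by ring
    have h2 : (d - u) * -d - (v + (d - u) * d) * -1 = v := by ring
    rw [h1, h2]
    simp

theorem charpoly3 (a b c d f g : ℝ) :
    (!![a, b, 0; c, 0, d; 0, f, g] : Matrix (Fin 3) (Fin 3) ℝ).charpoly =
      X ^ 3 - C (a + g) * X ^ 2 + C (a * g - b * c - d * f) * X + C (a * d * f + b * c * g) := by
  have h1 : charmatrix (!![a, b, 0; c, 0, d; 0, f, g] : Matrix (Fin 3) (Fin 3) ℝ) =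
      !![X - C a, -C b, 0; -C c, X, -C d; 0, -C f, X - C g] := by
    ext i j : 2
    fin_cases i <;> fin_cases j <;> simp
  rw [Matrix.charpoly, h1, Matrix.det_fin_three]
  simp
  ring

theorem realize_T3 (u1 u2 u3 : ℝ) :
    ∃ A : Matrix (Fin 3) (Fin 3) ℝ, Realizes A T3 ∧
      A.charpoly = X ^ 3 + C u1 * X ^ 2 + C u2 * X + C u3 := by
  set g : ℝ := |u1| + |u2| + |u3| + 1 with hg
  set a : ℝ := g - u1 with ha
  set N : ℝ := u2 + a * g with hN
  have n1 := abs_nonneg u1
  have n2 := abs_nonneg u2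
  have n3 := abs_nonneg u3
  have l1 := le_abs_self u1
  have l2 := neg_abs_le u2
  have l3 := neg_abs_le u3
  have l3' := le_abs_self u3
  have hg1 : 1 + |u2| + |u3| ≤ g := by rw [hg]; linarith
  have ha1 : 1 + |u2| + |u3| ≤ a := by rw [ha, hg]; linarith
  have hag : (1 + |u2| + |u3|) * (1 + |u2| + |u3|) ≤ a * g :=
    mul_le_mul ha1 hg1 (by linarith) (by linarith)
  have hN1 : 1 + |u3| ≤ N := by rw [hN]; nlinarith
  have haN : 1 + |u3| ≤ a * N := by nlinarith
  have hgN : 1 + |u3| ≤ g * N := by nlinarith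
  have hsum : 0 < a + g := by linarith
  have hc : 0 < (u3 + a * N) / (a + g) := div_pos (by linarith) hsum
  have hf : 0 < (g * N - u3) / (a + g) := div_pos (by linarith) hsum
  refine ⟨!![a, 1, 0; -((u3 + a * N) / (a + g)), 0, 1; 0, -((g * N - u3) / (a + g)), -g], ?_, ?_⟩
  · have ha0 : 0 < a := by linarith
    have hg0 : 0 < g := by linarith
    intro i j
    fin_cases i <;> fin_cases j
    · exact sign_pos ha0
    · exact sign_pos one_pos
    · exact sign_zero
    · exact sign_neg (neg_neg_of_pos hc)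
    · exact sign_zero
    · exact sign_pos one_pos
    · exact sign_zero
    · exact sign_neg (neg_neg_of_pos hf)
    · exact sign_neg (neg_neg_of_pos hg0)
  · rw [charpoly3]
    have h1 : u1 = -(a + -g) := by rw [ha]; ring
    have h2 : u2 = a * -g - 1 * -((u3 + a * N) / (a + g)) - 1 * -((g * N - u3) / (a + g)) := by
      have : (u3 + a * N) / (a + g) + (g * N - u3) / (a + g) = N := by
        rw [← add_div, show u3 + a * N + (g * N - u3) = N * (a + g) by ring]
        exact mul_div_cancel_right₀ _ hsum.ne'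
      linarith
    have h3 : u3 = a * 1 * -((g * N - u3) / (a + g)) + 1 * -((u3 + a * N) / (a + g)) * -g := by
      have : g * ((u3 + a * N) / (a + g)) - a * ((g * N - u3) / (a + g)) = u3 := by
        rw [← mul_div_assoc, ← mul_div_assoc, ← sub_div,
          show g * (u3 + a * N) - a * (g * N - u3) = u3 * (a + g) by ring]
        exact mul_div_cancel_right₀ _ hsum.ne'
      linarith
    conv_rhs => rw [h1, h2, h3]
    simp only [C_neg]
    ring_nf

/-- A monic polynomial of degree two. -/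
theorem two_form {P : ℝ[X]} (h : IsMonicOfDegree P 2) :
    ∃ u v : ℝ, P = X ^ 2 + C u * X + C v := by
  refine ⟨P.coeff 1, P.coeff 0, ?_⟩
  have h1 := P.as_sum_range_C_mul_X_pow
  rw [h.natDegree_eq] at h1
  have h2 : P.coeff 2 = 1 := by
    have := h.monic.coeff_natDegree
    rwa [h.natDegree_eq] at this
  rw [Finset.sum_range_succ, Finset.sum_range_succ, Finset.sum_range_one, h2] at h1
  conv_lhs => rw [h1]
  simp
  ring

/-- A monic polynomial of degree three. -/
theorem three_form {P : ℝ[X]} (h : IsMonicOfDegree P 3) :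
    ∃ u v w : ℝ, P = X ^ 3 + C u * X ^ 2 + C v * X + C w := by
  refine ⟨P.coeff 2, P.coeff 1, P.coeff 0, ?_⟩
  have h1 := P.as_sum_range_C_mul_X_pow
  rw [h.natDegree_eq] at h1
  have h2 : P.coeff 3 = 1 := by
    have := h.monic.coeff_natDegree
    rwa [h.natDegree_eq] at this
  rw [Finset.sum_range_succ, Finset.sum_range_succ, Finset.sum_range_succ, Finset.sum_range_one,
    h2] at h1
  conv_lhs => rw [h1]
  simp
  ring

theorem T2_arbitrary : SpectrallyArbitrary T2 := by
  intro P hP hd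
  rw [Fintype.card_fin] at hd
  obtain ⟨u, v, rfl⟩ := two_form ((isMonicOfDegree_iff' P 2).2 ⟨hd, hP⟩)
  exact realize_T2 u v

theorem T3_arbitrary : SpectrallyArbitrary T3 := by
  intro P hP hd
  rw [Fintype.card_fin] at hd
  obtain ⟨u, v, w, rfl⟩ := three_form ((isMonicOfDegree_iff' P 3).2 ⟨hd, hP⟩)
  exact realize_T3 u v w

/-! ### The block of order four -/

theorem charpoly4 (a b e x f g h k p q : ℝ) :
    (!![a, b, e, x; f, g, h, 0; 0, 0, 0, k; p, q, 0, 0] : Matrix (Fin 4) (Fin 4) ℝ).charpoly =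
      X ^ 4 - C (a + g) * X ^ 3 + C (a * g - b * f - x * p) * X ^ 2
        - C (x * (f * q - g * p) + k * (e * p + h * q)) * X
        + C (k * (q * (a * h - e * f) - p * (b * h - e * g))) := by
  have h1 : charmatrix (!![a, b, e, x; f, g, h, 0; 0, 0, 0, k; p, q, 0, 0] :
      Matrix (Fin 4) (Fin 4) ℝ) =
      !![X - C a, -C b, -C e, -C x; -C f, X - C g, -C h, 0; 0, 0, X, -C k; -C p, -C q, 0, X] := by
    ext i j : 2
    fin_cases i <;> fin_cases j <;> simp
  rw [Matrix.charpoly, h1]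
  simp [Matrix.det_succ_row_zero, Fin.sum_univ_succ, Fin.succAbove]
  ring

/-- The realizations of `M₄` used below. -/
theorem realize_M4_aux (p3 p2 p1 p0 s m A B : ℝ) (hs : 0 < s) (hs3 : 0 < s + p3)
    (hD : 0 < p2 + s * (s + p3)) (hm : 0 < m) (hA : 0 < A) (hB : 0 < B) (h1 : B - A = p1)
    (h0 : (p2 + s * (s + p3)) * B / m - s * B + A * m - (s + p3) * A = p0) :
    ∃ M : Matrix (Fin 4) (Fin 4) ℝ, Realizes M M4 ∧
      M.charpoly = X ^ 4 + C p3 * X ^ 3 + C p2 * X ^ 2 + C p1 * X + C p0 := by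
  refine ⟨!![s, p2 + s * (s + p3), -A, 0; -1, -(s + p3), B / m, 0; 0, 0, 0, -1; 1, m, 0, 0],
    ?_, ?_⟩
  · intro i j
    fin_cases i <;> fin_cases j
    · exact sign_pos hs
    · exact sign_pos hD
    · exact sign_neg (neg_neg_of_pos hA)
    · exact sign_zero
    · exact sign_neg (by norm_num)
    · exact sign_neg (neg_neg_of_pos hs3)
    · exact sign_pos (div_pos hB hm)
    · exact sign_zero
    · exact sign_zero
    · exact sign_zero
    · exact sign_zero
    · exact sign_neg (by norm_num)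
    · exact sign_pos one_pos
    · exact sign_pos hm
    · exact sign_zero
    · exact sign_zero
  · rw [charpoly4]
    have hBm : B / m * m = B := div_mul_cancel₀ B hm.ne'
    have e3 : s + -(s + p3) = -p3 := by ring
    have e2 : s * -(s + p3) - (p2 + s * (s + p3)) * -1 - 0 * 1 = p2 := by ring
    have e1 : 0 * (-1 * m - -(s + p3) * 1) + -1 * (-A * 1 + B / m * m) = -p1 := by
      rw [hBm]; linarith
    have e0 : -1 * (m * (s * (B / m) - -A * -1) -
        1 * ((p2 + s * (s + p3)) * (B / m) - -A * -(s + p3))) = p0 := by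
      rw [← h0]
      have : m * (s * (B / m)) = s * B := by
        rw [show m * (s * (B / m)) = s * (B / m * m) by ring, hBm]
      have h2 : (p2 + s * (s + p3)) * B / m = (p2 + s * (s + p3)) * (B / m) := by ring
      rw [h2]
      linarith
    rw [e3, e2, e1, e0]
    simp

/-- The quartics realized by `M₄`: all of them except some with vanishing coefficient of `X`. -/
theorem realize_M4 (p3 p2 p1 p0 : ℝ)
    (h : p1 ≠ 0 ∨ 0 < p0 ∨ (p0 = 0 ∧ 4 * p2 ≤ p3 ^ 2)) :
    ∃ M : Matrix (Fin 4) (Fin 4) ℝ, Realizes M M4 ∧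
      M.charpoly = X ^ 4 + C p3 * X ^ 3 + C p2 * X ^ 2 + C p1 * X + C p0 := by
  have n3 := abs_nonneg p3
  have n2 := abs_nonneg p2
  have n0 := abs_nonneg p0
  have l3 := neg_abs_le p3
  have l3' := le_abs_self p3
  have l2 := neg_abs_le p2
  have l2' := le_abs_self p2
  have l0 := neg_abs_le p0
  have l0' := le_abs_self p0
  rcases lt_trichotomy p1 0 with h1 | h1 | h1
  · -- `p1 < 0`
    set r : ℝ := |p0| / (-p1) with hr
    have hr0 : 0 ≤ r := div_nonneg n0 (by linarith)
    have hr1 : r * (-p1) = |p0| := div_mul_cancel₀ _ (by linarith)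
    set s : ℝ := 1 + 2 * |p3| + 4 * |p2| + 2 * r with hs
    have hs0 : 0 < s := by rw [hs]; linarith
    have hb : 1 + |p3| + 4 * |p2| + 2 * r ≤ s + p3 := by rw [hs]; linarith
    have hb0 : 0 < s + p3 := by linarith
    have hD : 0 < p2 + s * (s + p3) := by
      have h2 : (1 + 4 * |p2|) * 1 ≤ s * (s + p3) :=
        mul_le_mul (by rw [hs]; linarith) (by linarith) (by linarith) (by linarith)
      linarith
    have hm : 0 < (s + p3) / 2 := by linarith
    -- the coefficient of `B`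
    set g : ℝ := (p2 + s * (s + p3)) / ((s + p3) / 2) - s + (s + p3) / 2 - (s + p3) with hg
    have hg' : g = 2 * (p2 / (s + p3)) + (s - p3) / 2 := by
      rw [hg]
      field_simp
      ring
    have hp2 : -|p2| ≤ p2 / (s + p3) := by
      rw [le_div_iff₀ hb0]
      nlinarith
    have hg0 : 0 < g := by
      rw [hg']
      have : s - p3 ≥ 1 + |p3| + 4 * |p2| := by rw [hs]; linarith
      linarith
    have hnum : 0 < p0 + (-p1) * ((s + p3) / 2) := by
      have : |p0| + (-p1) * (1 / 2) ≤ (-p1) * ((s + p3) / 2) := by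
        rw [← hr1]
        nlinarith
      nlinarith
    have hB : 0 < (p0 + (-p1) * ((s + p3) / 2)) / g := div_pos hnum hg0
    set B : ℝ := (p0 + (-p1) * ((s + p3) / 2)) / g with hBd
    have hBg : B * g = p0 + (-p1) * ((s + p3) / 2) := div_mul_cancel₀ _ hg0.ne'
    refine realize_M4_aux p3 p2 p1 p0 s ((s + p3) / 2) (B - p1) B hs0 hb0 hD hm (by linarith) hB
      (by ring) ?_
    rw [hg] at hBg
    have : (p2 + s * (s + p3)) * B / ((s + p3) / 2) =
      B * ((p2 + s * (s + p3)) / ((s + p3) / 2)) := by ring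
    rw [this]
    linarith
  · -- `p1 = 0`
    have h' : 0 < p0 ∨ (p0 = 0 ∧ 4 * p2 ≤ p3 ^ 2) := by
      rcases h with h | h
      · exact absurd h1 h
      · exact h
    set s : ℝ := 1 + |p3| + |p2| with hs
    have hs0 : 0 < s := by rw [hs]; linarith
    have hb : 1 + |p2| ≤ s + p3 := by rw [hs]; linarith
    have hb0 : 0 < s + p3 := by linarith
    have hD : 0 < p2 + s * (s + p3) := by
      have h2 : (1 + |p2|) * 1 ≤ s * (s + p3) :=
        mul_le_mul (by rw [hs]; linarith) (by linarith) (by linarith) (by linarith)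
      linarith
    rcases h' with h0 | ⟨h0, h2⟩
    · have hm : 0 < s + (s + p3) := by linarith
      set g : ℝ := (p2 + s * (s + p3)) / (s + (s + p3)) with hg
      have hg0 : 0 < g := div_pos hD hm
      have hBg : p0 / g * g = p0 := div_mul_cancel₀ _ hg0.ne'
      refine realize_M4_aux p3 p2 p1 p0 s (s + (s + p3)) (p0 / g) (p0 / g) hs0 hb0 hD hm
        (div_pos h0 hg0) (div_pos h0 hg0) (by rw [h1]; ring) ?_
      have : (p2 + s * (s + p3)) * (p0 / g) / (s + (s + p3)) = p0 / g * g := by rw [hg]; ring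
      rw [this, hBg]
      ring
    · have hd : 0 ≤ p3 ^ 2 - 4 * p2 := by linarith
      set d : ℝ := Real.sqrt (p3 ^ 2 - 4 * p2) with hdd
      have hd0 : 0 ≤ d := Real.sqrt_nonneg _
      have hd2 : d ^ 2 = p3 ^ 2 - 4 * p2 := Real.sq_sqrt hd
      have hm : 0 < (s + (s + p3) + d) / 2 := by linarith
      refine realize_M4_aux p3 p2 p1 p0 s ((s + (s + p3) + d) / 2) 1 1 hs0 hb0 hD hm
        one_pos one_pos (by rw [h1]; ring) ?_
      rw [h0]
      have hne : (s + (s + p3) + d) / 2 ≠ 0 := hm.ne'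
      have hne' : s + (s + p3) + d ≠ 0 := by
        intro h
        rw [h] at hne
        simp at hne
      field_simp
      linear_combination hd2
  · -- `0 < p1`
    set r : ℝ := |p0| / p1 with hr
    have hr0 : 0 ≤ r := div_nonneg n0 h1.le
    have hr1 : r * p1 = |p0| := div_mul_cancel₀ _ h1.ne'
    set s : ℝ := 1 + |p3| + |p2| + 2 * r with hs
    have hs0 : 0 < s := by rw [hs]; linarith
    have hs1 : 1 ≤ s := by rw [hs]; linarith
    have hb : 1 + |p2| ≤ s + p3 := by rw [hs]; linarith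
    have hb0 : 0 < s + p3 := by linarith
    have hD : 0 < p2 + s * (s + p3) := by
      have h2 : (1 + |p2|) * 1 ≤ s * (s + p3) :=
        mul_le_mul (by rw [hs]; linarith) (by linarith) (by linarith) (by linarith)
      linarith
    have hm : 0 < 2 * (s + (s + p3)) := by linarith
    set D : ℝ := (p2 + s * (s + p3)) / (2 * (s + (s + p3))) with hDd
    have hDpos : 0 < D := div_pos hD hm
    have hDm : D * (2 * (s + (s + p3))) = p2 + s * (s + p3) := div_mul_cancel₀ _ hm.ne'
    set g : ℝ := D - s + 2 * (s + (s + p3)) - (s + p3) with hg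
    have hg0 : 0 < g := by rw [hg]; linarith
    have hDs : D - s ≤ -s / 2 := by
      rw [hDd, sub_le_iff_le_add, div_le_iff₀ hm]
      nlinarith
    have hnum : 0 < p0 - p1 * (D - s) := by
      have h2 : p1 * (D - s) ≤ p1 * (-s / 2) := mul_le_mul_of_nonneg_left hDs h1.le
      have h3 : |p0| + p1 * (1 / 2) ≤ p1 * (s / 2) := by
        rw [← hr1, hs]
        nlinarith
      nlinarith
    set A : ℝ := (p0 - p1 * (D - s)) / g with hAd
    have hA : 0 < A := div_pos hnum hg0
    have hAg : A * g = p0 - p1 * (D - s) := div_mul_cancel₀ _ hg0.ne'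
    refine realize_M4_aux p3 p2 p1 p0 s (2 * (s + (s + p3))) A (A + p1) hs0 hb0 hD hm hA
      (by linarith) (by ring) ?_
    have : (p2 + s * (s + p3)) * (A + p1) / (2 * (s + (s + p3))) = (A + p1) * D := by
      rw [hDd]; ring
    rw [this]
    rw [hg] at hAg
    linarith

/-- Among three real quadratics there are two whose product is realized by `M₄`. -/
theorem realize_pair (u₁ v₁ u₂ v₂ u₃ v₃ : ℝ) :
    (∃ M : Matrix (Fin 4) (Fin 4) ℝ, Realizes M M4 ∧
      M.charpoly = (X ^ 2 + C u₁ * X + C v₁) * (X ^ 2 + C u₂ * X + C v₂)) ∨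
    (∃ M : Matrix (Fin 4) (Fin 4) ℝ, Realizes M M4 ∧
      M.charpoly = (X ^ 2 + C u₁ * X + C v₁) * (X ^ 2 + C u₃ * X + C v₃)) ∨
    (∃ M : Matrix (Fin 4) (Fin 4) ℝ, Realizes M M4 ∧
      M.charpoly = (X ^ 2 + C u₂ * X + C v₂) * (X ^ 2 + C u₃ * X + C v₃)) := by
  have key : ∀ u v u' v' : ℝ, (u * v' + u' * v ≠ 0 ∨ 0 < v * v' ∨
      (v * v' = 0 ∧ 4 * (v + v' + u * u') ≤ (u + u') ^ 2)) →
      ∃ M : Matrix (Fin 4) (Fin 4) ℝ, Realizes M M4 ∧
        M.charpoly = (X ^ 2 + C u * X + C v) * (X ^ 2 + C u' * X + C v') := by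
    intro u v u' v' h
    obtain ⟨M, hM, hM'⟩ := realize_M4 (u + u') (v + v' + u * u') (u * v' + u' * v) (v * v') h
    refine ⟨M, hM, ?_⟩
    rw [hM']
    simp only [C_add, C_mul]
    ring
  -- the case of a quadratic with vanishing constant term
  have zero : ∀ u v u' v' w : ℝ, (u * v' + u' * v = 0) → v * v' ≤ 0 → u * 0 + w * v = 0 →
      u' * 0 + w * v' = 0 →
      (v * 0 = 0 ∧ 4 * (v + 0 + u * w) ≤ (u + w) ^ 2) ∨
      (v' * 0 = 0 ∧ 4 * (v' + 0 + u' * w) ≤ (u' + w) ^ 2) := by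
    intro u v u' v' w h1 h2 h3 h4
    by_cases hw : w = 0
    · subst hw
      by_cases hv : 4 * v ≤ u ^ 2
      · left
        exact ⟨mul_zero _, by simpa using hv⟩
      · right
        refine ⟨mul_zero _, ?_⟩
        push Not at hv
        have hv0 : 0 < v := by nlinarith [sq_nonneg u]
        have hv' : v' ≤ 0 := by
          by_contra hcon
          push Not at hcon
          nlinarith [mul_pos hv0 hcon]
        simp
        nlinarith [sq_nonneg u']
    · left
      have hv : v = 0 := by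
        have : w * v = 0 := by linarith
        rcases mul_eq_zero.1 this with h | h
        · exact absurd h hw
        · exact h
      subst hv
      refine ⟨mul_zero _, ?_⟩
      nlinarith [sq_nonneg (u - w)]
  by_cases h12 : u₁ * v₂ + u₂ * v₁ ≠ 0 ∨ 0 < v₁ * v₂
  · left
    exact key _ _ _ _ (by tauto)
  by_cases h13 : u₁ * v₃ + u₃ * v₁ ≠ 0 ∨ 0 < v₁ * v₃
  · right; left
    exact key _ _ _ _ (by tauto)
  by_cases h23 : u₂ * v₃ + u₃ * v₂ ≠ 0 ∨ 0 < v₂ * v₃
  · right; right
    exact key _ _ _ _ (by tauto)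
  push Not at h12 h13 h23
  obtain ⟨a12, b12⟩ := h12
  obtain ⟨a13, b13⟩ := h13
  obtain ⟨a23, b23⟩ := h23
  have hv : v₁ = 0 ∨ v₂ = 0 ∨ v₃ = 0 := by
    by_contra hcon
    push Not at hcon
    obtain ⟨c1, c2, c3⟩ := hcon
    have d1 : v₁ * v₂ < 0 := lt_of_le_of_ne b12 (mul_ne_zero c1 c2)
    have d2 : v₁ * v₃ < 0 := lt_of_le_of_ne b13 (mul_ne_zero c1 c3)
    have d3 : v₂ * v₃ < 0 := lt_of_le_of_ne b23 (mul_ne_zero c2 c3)
    have e1 := mul_pos_of_neg_of_neg d1 d2
    have e2 := mul_neg_of_pos_of_neg e1 d3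
    nlinarith [sq_nonneg (v₁ * v₂ * v₃)]
  rcases hv with hv | hv | hv
  · subst hv
    rcases zero u₂ v₂ u₃ v₃ u₁ a23 b23 (by linarith) (by linarith) with h | h
    · left
      refine key _ _ _ _ (Or.inr (Or.inr ⟨by linarith [h.1], ?_⟩))
      have := h.2
      nlinarith
    · right; left
      refine key _ _ _ _ (Or.inr (Or.inr ⟨by linarith [h.1], ?_⟩))
      have := h.2
      nlinarith
  · subst hv
    rcases zero u₁ v₁ u₃ v₃ u₂ a13 b13 (by linarith) (by linarith) with h | h
    · left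
      refine key _ _ _ _ (Or.inr (Or.inr ⟨by linarith [h.1], ?_⟩))
      have := h.2
      nlinarith
    · right; right
      refine key _ _ _ _ (Or.inr (Or.inr ⟨by linarith [h.1], ?_⟩))
      have := h.2
      nlinarith
  · subst hv
    rcases zero u₁ v₁ u₂ v₂ u₃ a12 b12 (by linarith) (by linarith) with h | h
    · right; left
      refine key _ _ _ _ (Or.inr (Or.inr ⟨by linarith [h.1], ?_⟩))
      have := h.2
      nlinarith
    · right; right
      refine key _ _ _ _ (Or.inr (Or.inr ⟨by linarith [h.1], ?_⟩))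
      have := h.2
      nlinarith

/-- If the first three elementary symmetric functions of the eigenvalues of a realization of `M₄'`
vanish, then the determinant is positive. -/
theorem M4'_key (a b e x f g h k p q : ℝ) (he : e < 0) (hx : 0 < x)
    (hf : f < 0) (hg : g < 0) (hh : 0 < h) (hk : k < 0) (hp : 0 < p) (hq : 0 < q)
    (E1 : a + g = 0) (E2 : a * g - b * f - x * p = 0)
    (E3 : x * (f * q - g * p) + k * (e * p + h * q) = 0) :
    0 < k * (q * (a * h - e * f) - p * (b * h - e * g)) := by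
  set M : ℝ := -f * q with hM
  have hMpos : 0 < M := mul_pos (by linarith) hq
  have hga : g = -a := by linarith
  subst hga
  have hb' : b * -f = a * a + x * p := by linarith
  set A : ℝ := -e * p with hA
  set B : ℝ := h * q with hB
  have hApos : 0 < A := mul_pos (by linarith) hp
  have hBpos : 0 < B := mul_pos hh hq
  have hc : 0 < -k := by linarith
  -- the third equation
  have h3 : -k * (A - B) = x * (M - a * p) := by
    rw [hA, hB, hM]; linarith
  have key : p * M * (k * (q * (a * h - e * f) - p * (b * h - e * -a))) =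
      (M - a * p) ^ 2 * (x * M + -k * B) + -k * x * p ^ 3 * B := by
    have : p * M * (k * (q * (a * h - e * f) - p * (b * h - e * -a))) =
        -k * ((M - a * p) * (A * M - a * p * B) + x * p ^ 3 * B)
          + (-k) * p ^ 2 * B * (b * -f - (a * a + x * p)) := by
      rw [hA, hB, hM]; ring
    rw [this, hb']
    linear_combination (M - a * p) * M * h3
  have hpos : 0 < (M - a * p) ^ 2 * (x * M + -k * B) + -k * x * p ^ 3 * B := by
    have h1 : 0 ≤ (M - a * p) ^ 2 * (x * M + -k * B) :=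
      mul_nonneg (sq_nonneg _) (by positivity)
    have h2 : 0 < -k * x * p ^ 3 * B := by positivity
    linarith
  rw [← key] at hpos
  exact (mul_pos_iff_of_pos_left (by positivity)).1 hpos

/-- `M₄'` has no realization with characteristic polynomial `X ^ 4`. -/
theorem M4'_not_nilpotent (A : Matrix (Fin 4) (Fin 4) ℝ) (hA : Realizes A M4') :
    A.charpoly ≠ X ^ 4 := by
  intro h
  have z13 : A 1 3 = 0 := sign_eq_zero_iff.1 (hA 1 3)
  have z20 : A 2 0 = 0 := sign_eq_zero_iff.1 (hA 2 0)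
  have z21 : A 2 1 = 0 := sign_eq_zero_iff.1 (hA 2 1)
  have z22 : A 2 2 = 0 := sign_eq_zero_iff.1 (hA 2 2)
  have z32 : A 3 2 = 0 := sign_eq_zero_iff.1 (hA 3 2)
  have z33 : A 3 3 = 0 := sign_eq_zero_iff.1 (hA 3 3)
  have p02 : A 0 2 < 0 := sign_eq_neg_one_iff.1 (hA 0 2)
  have p03 : 0 < A 0 3 := sign_eq_one_iff.1 (hA 0 3)
  have p10 : A 1 0 < 0 := sign_eq_neg_one_iff.1 (hA 1 0)
  have p11 : A 1 1 < 0 := sign_eq_neg_one_iff.1 (hA 1 1)
  have p12 : 0 < A 1 2 := sign_eq_one_iff.1 (hA 1 2)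
  have p23 : A 2 3 < 0 := sign_eq_neg_one_iff.1 (hA 2 3)
  have p30 : 0 < A 3 0 := sign_eq_one_iff.1 (hA 3 0)
  have p31 : 0 < A 3 1 := sign_eq_one_iff.1 (hA 3 1)
  have hAe : A = !![A 0 0, A 0 1, A 0 2, A 0 3; A 1 0, A 1 1, A 1 2, 0; 0, 0, 0, A 2 3;
      A 3 0, A 3 1, 0, 0] := by
    ext i j
    fin_cases i <;> fin_cases j <;> simp [z13, z20, z21, z22, z32, z33]
  rw [hAe, charpoly4] at h
  have c3 := congrArg (fun P : ℝ[X] => P.coeff 3) h
  have c2 := congrArg (fun P : ℝ[X] => P.coeff 2) h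
  have c1 := congrArg (fun P : ℝ[X] => P.coeff 1) h
  have c0 := congrArg (fun P : ℝ[X] => P.coeff 0) h
  simp only [coeff_add, coeff_sub, coeff_C_mul, coeff_X_pow, coeff_X, coeff_C] at c0 c1 c2 c3
  norm_num at c0 c1 c2 c3
  have := M4'_key (A 0 0) (A 0 1) (A 0 2) (A 0 3) (A 1 0) (A 1 1) (A 1 2) (A 2 3) (A 3 0) (A 3 1)
    p02 p03 p10 p11 p12 p23 p30 p31 (by linarith) (by linarith) (by linarith)
  rcases c0 with c0 | c0
  · linarith
  · rw [c0] at this
    linarith

/-! ### Direct sums -/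

/-- The direct sum of two patterns. -/
def dsum {ι κ : Type} (S : Matrix ι ι SignType) (T : Matrix κ κ SignType) :
    Matrix (ι ⊕ κ) (ι ⊕ κ) SignType := Matrix.fromBlocks S 0 0 T

theorem realizes_dsum {ι κ : Type} {S : Matrix ι ι SignType} {T : Matrix κ κ SignType}
    {A : Matrix ι ι ℝ} {B : Matrix κ κ ℝ} (hA : Realizes A S) (hB : Realizes B T) :
    Realizes (Matrix.fromBlocks A 0 0 B) (dsum S T) := by
  rintro (i | i) (j | j)
  · exact hA i j
  · simp [dsum]
  · simp [dsum]
  · exact hB i j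

theorem of_realizes_dsum {ι κ : Type} {S : Matrix ι ι SignType} {T : Matrix κ κ SignType}
    {N : Matrix (ι ⊕ κ) (ι ⊕ κ) ℝ} (h : Realizes N (dsum S T)) :
    ∃ (A : Matrix ι ι ℝ) (B : Matrix κ κ ℝ), Realizes A S ∧ Realizes B T ∧
      N = Matrix.fromBlocks A 0 0 B := by
  refine ⟨N.toBlocks₁₁, N.toBlocks₂₂, fun i j => h (Sum.inl i) (Sum.inl j),
    fun i j => h (Sum.inr i) (Sum.inr j), ?_⟩
  conv_lhs => rw [← Matrix.fromBlocks_toBlocks N]
  congr 1
  · ext i j
    exact sign_eq_zero_iff.1 (h (Sum.inl i) (Sum.inr j))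
  · ext i j
    exact sign_eq_zero_iff.1 (h (Sum.inr i) (Sum.inl j))

/-- The direct sum of spectrally arbitrary patterns, one of them of order two. -/
theorem dsum_T2 {ι : Type} [Fintype ι] [DecidableEq ι] {S : Matrix ι ι SignType}
    (hS : SpectrallyArbitrary S) : SpectrallyArbitrary (dsum S T2) := by
  intro P hP hd
  rw [Fintype.card_sum, Fintype.card_fin] at hd
  obtain ⟨f, g, hf, hg, rfl⟩ :=
    IsMonicOfDegree.eq_isMonicOfDegree_two_mul_isMonicOfDegree ((isMonicOfDegree_iff' P _).2 ⟨hd, hP⟩)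
  obtain ⟨A, hA, hA'⟩ := hS g hg.monic hg.natDegree_eq
  obtain ⟨B, hB, hB'⟩ := T2_arbitrary f hf.monic (by rw [hf.natDegree_eq, Fintype.card_fin])
  refine ⟨_, realizes_dsum hA hB, ?_⟩
  rw [Matrix.charpoly_fromBlocks_zero₁₂, hA', hB', mul_comm]

/-- `M₄ ⊕ K` is spectrally arbitrary for every spectrally arbitrary `K` of order at least two. -/
theorem dsum_M4 {κ : Type} [Fintype κ] [DecidableEq κ] {K : Matrix κ κ SignType}
    (hκ : 2 ≤ Fintype.card κ) (hK : SpectrallyArbitrary K) :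
    SpectrallyArbitrary (dsum M4 K) := by
  intro P hP hd
  rw [Fintype.card_sum, Fintype.card_fin] at hd
  obtain ⟨k, hk⟩ : ∃ k, Fintype.card κ = k + 2 := ⟨Fintype.card κ - 2, by omega⟩
  have h6 : IsMonicOfDegree P (k + 2 + 2 + 2) := (isMonicOfDegree_iff' P _).2 ⟨by omega, hP⟩
  obtain ⟨f₁, g₁, hf₁, hg₁, rfl⟩ := IsMonicOfDegree.eq_isMonicOfDegree_two_mul_isMonicOfDegree h6
  obtain ⟨f₂, g₂, hf₂, hg₂, rfl⟩ := IsMonicOfDegree.eq_isMonicOfDegree_two_mul_isMonicOfDegree hg₁
  obtain ⟨f₃, g, hf₃, hg, rfl⟩ := IsMonicOfDegree.eq_isMonicOfDegree_two_mul_isMonicOfDegree hg₂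
  obtain ⟨u₁, v₁, hF₁⟩ := two_form hf₁
  obtain ⟨u₂, v₂, hF₂⟩ := two_form hf₂
  obtain ⟨u₃, v₃, hF₃⟩ := two_form hf₃
  have fin : ∀ (Q R : ℝ[X]), (∃ M : Matrix (Fin 4) (Fin 4) ℝ, Realizes M M4 ∧ M.charpoly = Q) →
      IsMonicOfDegree R 2 → f₁ * (f₂ * (f₃ * g)) = Q * (R * g) →
      ∃ A : Matrix (Fin 4 ⊕ κ) (Fin 4 ⊕ κ) ℝ, Realizes A (dsum M4 K) ∧
        A.charpoly = f₁ * (f₂ * (f₃ * g)) := by
    rintro Q R ⟨M, hM, hM'⟩ hR hQR
    have hRg : IsMonicOfDegree (R * g) (2 + k) := hR.mul hg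
    obtain ⟨B, hB, hB'⟩ := hK (R * g) hRg.monic (by rw [hRg.natDegree_eq]; omega)
    refine ⟨_, realizes_dsum hM hB, ?_⟩
    rw [Matrix.charpoly_fromBlocks_zero₁₂, hM', hB', hQR]
  rcases realize_pair u₁ v₁ u₂ v₂ u₃ v₃ with h | h | h
  · rw [← hF₁, ← hF₂] at h
    exact fin _ f₃ h hf₃ (by ring)
  · rw [← hF₁, ← hF₃] at h
    exact fin _ f₂ h hf₂ (by ring)
  · rw [← hF₂, ← hF₃] at h
    exact fin _ f₁ h hf₁ (by ring)

/-- `M₄' ⊕ K` has no nilpotent realization. -/
theorem dsum_M4'_not_nilpotent {κ : Type} [Fintype κ] [DecidableEq κ] {K : Matrix κ κ SignType}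
    (N : Matrix (Fin 4 ⊕ κ) (Fin 4 ⊕ κ) ℝ) (hN : Realizes N (dsum M4' K)) (n : ℕ) :
    N.charpoly ≠ X ^ n := by
  intro h
  obtain ⟨A, B, hA, hB, rfl⟩ := of_realizes_dsum hN
  rw [Matrix.charpoly_fromBlocks_zero₁₂] at h
  have hdvd : A.charpoly ∣ X ^ n := ⟨_, h.symm⟩
  obtain ⟨j, hj, hass⟩ := (dvd_prime_pow prime_X n).1 hdvd
  have hAm : A.charpoly = X ^ j :=
    eq_of_monic_of_associated A.charpoly_monic (monic_X_pow j) hass
  have hdeg := A.charpoly_natDegree_eq_dim
  rw [hAm, natDegree_X_pow, Fintype.card_fin] at hdeg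
  rw [hdeg] at hAm
  exact M4'_not_nilpotent A hA hAm

/-! ### Reindexing -/

theorem SpectrallyArbitrary.reindex {ι κ : Type} [Fintype ι] [DecidableEq ι] [Fintype κ]
    [DecidableEq κ] (e : ι ≃ κ) {S : Matrix ι ι SignType} (hS : SpectrallyArbitrary S) :
    SpectrallyArbitrary (Matrix.reindex e e S) := by
  intro P hP hd
  rw [← Fintype.card_congr e] at hd
  obtain ⟨A, hA, hA'⟩ := hS P hP hd
  refine ⟨Matrix.reindex e e A, fun i j => hA (e.symm i) (e.symm j), ?_⟩
  rw [Matrix.charpoly_reindex, hA']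

theorem Realizes.of_reindex {ι κ : Type} (e : ι ≃ κ) {S : Matrix ι ι SignType}
    {A : Matrix κ κ ℝ} (h : Realizes A (Matrix.reindex e e S)) :
    Realizes (Matrix.reindex e.symm e.symm A) S := by
  intro i j
  have := h (e i) (e j)
  simpa using this

/-- There are spectrally arbitrary patterns of every order at least two. -/
theorem exists_arbitrary : ∀ n : ℕ, 2 ≤ n →
    ∃ (κ : Type) (_ : Fintype κ) (_ : DecidableEq κ) (K : Matrix κ κ SignType),
      Fintype.card κ = n ∧ SpectrallyArbitrary K := by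
  intro n
  induction n using Nat.strong_induction_on with
  | _ n ih =>
    intro hn
    by_cases h2 : n = 2
    · exact ⟨Fin 2, inferInstance, inferInstance, T2, by simp [h2], T2_arbitrary⟩
    by_cases h3 : n = 3
    · exact ⟨Fin 3, inferInstance, inferInstance, T3, by simp [h3], T3_arbitrary⟩
    obtain ⟨κ, i1, i2, K, hc, hK⟩ := ih (n - 2) (by omega) (by omega)
    refine ⟨κ ⊕ Fin 2, inferInstance, inferInstance, dsum K T2, ?_, dsum_T2 hK⟩
    rw [Fintype.card_sum, hc, Fintype.card_fin]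
    omega

/-- `M₄ ⊕ T₂`. -/
def S : Matrix (Fin 6) (Fin 6) SignType :=
  !![1, 1, -1, 0, 0, 0;
     -1, -1, 1, 0, 0, 0;
     0, 0, 0, -1, 0, 0;
     1, 1, 0, 0, 0, 0;
     0, 0, 0, 0, 1, 1;
     0, 0, 0, 0, -1, -1]

/-- `M₄' ⊕ T₂`: the pattern `S` with `+` at the position `(1,4)`. -/
def S' : Matrix (Fin 6) (Fin 6) SignType :=
  !![1, 1, -1, 1, 0, 0;
     -1, -1, 1, 0, 0, 0;
     0, 0, 0, -1, 0, 0;
     1, 1, 0, 0, 0, 0;
     0, 0, 0, 0, 1, 1;
     0, 0, 0, 0, -1, -1]

theorem S_eq : S = Matrix.reindex (finSumFinEquiv : Fin 4 ⊕ Fin 2 ≃ Fin 6) finSumFinEquiv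
    (dsum M4 T2) := by
  ext i j
  fin_cases i <;> fin_cases j <;> rfl

theorem S'_eq : S' = Matrix.reindex (finSumFinEquiv : Fin 4 ⊕ Fin 2 ≃ Fin 6) finSumFinEquiv
    (dsum M4' T2) := by
  ext i j
  fin_cases i <;> fin_cases j <;> rfl

theorem M4_agree (i j : Fin 4) (h : (i, j) ≠ (0, 3)) : M4' i j = M4 i j := by
  fin_cases i <;> fin_cases j <;> simp [M4, M4'] at h ⊢

theorem M4_super (i j : Fin 4) (h : M4 i j ≠ 0) : M4' i j = M4 i j := by
  refine M4_agree i j ?_
  rintro h'
  obtain ⟨rfl, rfl⟩ := Prod.mk.inj h'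
  exact h rfl

theorem S_super : IsSuperpattern S' S := by
  intro i j h
  rw [S_eq] at h ⊢
  rw [S'_eq]
  obtain ⟨i, rfl⟩ := (finSumFinEquiv : Fin 4 ⊕ Fin 2 ≃ Fin 6).surjective i
  obtain ⟨j, rfl⟩ := (finSumFinEquiv : Fin 4 ⊕ Fin 2 ≃ Fin 6).surjective j
  simp only [Matrix.reindex_apply, Matrix.submatrix_apply, Equiv.symm_apply_apply] at h ⊢
  rcases i with i | i <;> rcases j with j | j
  · exact M4_super i j h
  · simp [dsum]
  · simp [dsum]
  · simp [dsum]

theorem notSA (n : ℕ) (U' : Matrix (Fin n) (Fin n) SignType)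
    (h : ∀ A : Matrix (Fin n) (Fin n) ℝ, Realizes A U' → A.charpoly ≠ X ^ n) :
    ¬ SpectrallyArbitrary U' := by
  intro hU
  obtain ⟨A, hA, hA'⟩ := hU (X ^ n) (monic_X_pow n) (by rw [natDegree_X_pow, Fintype.card_fin])
  exact h A hA hA'

theorem nil (n : ℕ) (κ : Type) [Fintype κ] [DecidableEq κ] (K : Matrix κ κ SignType)
    (e : Fin 4 ⊕ κ ≃ Fin n) (A : Matrix (Fin n) (Fin n) ℝ)
    (hA : Realizes A (Matrix.reindex e e (dsum M4' K))) : A.charpoly ≠ X ^ n := by
  intro h
  refine dsum_M4'_not_nilpotent _ (Realizes.of_reindex e hA) n ?_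
  rw [Matrix.charpoly_reindex, h]

theorem S'_not_nilpotent (A : Matrix (Fin 6) (Fin 6) ℝ) (hA : Realizes A S') :
    A.charpoly ≠ X ^ 6 := by
  rw [S'_eq] at hA
  exact nil 6 (Fin 2) T2 finSumFinEquiv A hA

theorem S_arbitrary : SpectrallyArbitrary S := by
  rw [S_eq]
  exact (dsum_M4 (by simp) T2_arbitrary).reindex _

/-- **Q1.** For every `n ≥ 6` there are a spectrally arbitrary sign pattern `U` of order `n` and a
superpattern `U'` of it, obtained by changing a single zero entry, that is not spectrally arbitrary;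
moreover `U'` has no realization with characteristic polynomial `X ^ n`.
For `n = 6` the pair is `S`, `S'` above. -/
theorem result :
    ∀ n : ℕ, 6 ≤ n → ∃ U U' : Matrix (Fin n) (Fin n) SignType,
      SpectrallyArbitrary U ∧ IsSuperpattern U' U ∧
      (∃ i₀ j₀, ∀ i j, (i, j) ≠ (i₀, j₀) → U' i j = U i j) ∧
      (∀ A : Matrix (Fin n) (Fin n) ℝ, Realizes A U' → A.charpoly ≠ X ^ n) ∧
      ¬ SpectrallyArbitrary U' := by
  intro n hn
  obtain ⟨κ, i1, i2, K, hc, hK⟩ := exists_arbitrary (n - 4) (by omega)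
  have hcard : Fintype.card (Fin 4 ⊕ κ) = Fintype.card (Fin n) := by
    rw [Fintype.card_sum, Fintype.card_fin, Fintype.card_fin, hc]
    omega
  let e : Fin 4 ⊕ κ ≃ Fin n := Fintype.equivOfCardEq hcard
  have h1 : ∀ A : Matrix (Fin n) (Fin n) ℝ,
      Realizes A (Matrix.reindex e e (dsum M4' K)) → A.charpoly ≠ X ^ n :=
    nil n κ K e
  refine ⟨Matrix.reindex e e (dsum M4 K), Matrix.reindex e e (dsum M4' K),
    (dsum_M4 (by omega) hK).reindex e, ?_, ⟨e (Sum.inl 0), e (Sum.inl 3), ?_⟩, h1,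
    notSA n _ h1⟩
  · intro i j
    obtain ⟨i, rfl⟩ := e.surjective i
    obtain ⟨j, rfl⟩ := e.surjective j
    simp only [Matrix.reindex_apply, Matrix.submatrix_apply, Equiv.symm_apply_apply]
    rcases i with i | i <;> rcases j with j | j
    · exact M4_super i j
    · intro _; simp [dsum]
    · intro _; simp [dsum]
    · intro _; simp [dsum]
  · intro i j
    obtain ⟨i, rfl⟩ := e.surjective i
    obtain ⟨j, rfl⟩ := e.surjective j
    simp only [Matrix.reindex_apply, Matrix.submatrix_apply, Equiv.symm_apply_apply]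
    rcases i with i | i <;> rcases j with j | j
    · intro h
      refine M4_agree i j ?_
      rintro h'
      obtain ⟨rfl, rfl⟩ := Prod.mk.inj h'
      exact h rfl
    · intro _; simp [dsum]
    · intro _; simp [dsum]
    · intro _; simp [dsum]

end Pool.Agent.Results.MP_557f7f_co.SpectralSuperpattern
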